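import Pool.Agent.E8helper19.LC.Stm

/-!
# Project LC, piece LC10 S_KEY: the integral equation (MP_862eda_mp)
-/

set_option autoImplicit false
open MeasureTheory Filter Topology Set
open scoped ContDiff Real

namespace Pool.Agent.E8helper54.LC.Key

open Pool.Agent.E8helper19.LC

lemma norm_pw (k s : ℝ) : ‖pw k s‖ = 1 := by
  unfold pw
  have : Complex.I * (k : ℂ) * (s : ℂ) = ((k * s : ℝ) : ℂ) * Complex.I := by
    push_cast; ring
  rw [this, Complex.norm_exp_ofReal_mul_I]

lemma cont_pw (k : ℝ) : Continuous (pw k) := by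
  unfold pw
  fun_prop

lemma pw_add (k s t : ℝ) : pw k (s + t) = pw k s * pw k t := by
  unfold pw
  rw [← Complex.exp_add]
  congr 1
  push_cast; ring

lemma pw_neg (k s : ℝ) : pw (-k) s = pw k (-s) := by
  unfold pw
  congr 1
  push_cast; ring

lemma bc_pw (k : ℝ) : BC (pw k) := ⟨cont_pw k, 1, fun s => (norm_pw k s).le⟩

lemma norm_g0 (k s : ℝ) : ‖g0 k s‖ = ‖Complex.I / (2 * (k : ℂ))‖ := by
  unfold g0
  rw [norm_mul, norm_pw, mul_one]

lemma cont_g0 (k : ℝ) : Continuous (g0 k) := by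
  unfold g0
  exact continuous_const.mul ((cont_pw k).comp continuous_abs)

lemma bc_g0 (k : ℝ) : BC (g0 k) := ⟨cont_g0 k, _, fun s => (norm_g0 k s).le⟩

lemma BC.add {f g : ℝ → ℂ} (hf : BC f) (hg : BC g) : BC (fun s => f s + g s) := by
  obtain ⟨C, hC⟩ := hf.bdd
  obtain ⟨C', hC'⟩ := hg.bdd
  exact ⟨hf.cont.add hg.cont, C + C', fun s => (norm_add_le _ _).trans (add_le_add (hC s) (hC' s))⟩

lemma BC.sub {f g : ℝ → ℂ} (hf : BC f) (hg : BC g) : BC (fun s => f s - g s) := by
  obtain ⟨C, hC⟩ := hf.bdd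
  obtain ⟨C', hC'⟩ := hg.bdd
  exact ⟨hf.cont.sub hg.cont, C + C', fun s => (norm_sub_le _ _).trans (add_le_add (hC s) (hC' s))⟩

lemma BC.const_mul {f : ℝ → ℂ} (c : ℂ) (hf : BC f) : BC (fun s => c * f s) := by
  obtain ⟨C, hC⟩ := hf.bdd
  refine ⟨continuous_const.mul hf.cont, ‖c‖ * C, fun s => ?_⟩
  rw [norm_mul]
  exact mul_le_mul_of_nonneg_left (hC s) (norm_nonneg _)

/-- change of variable -/
lemma conv_sub (a : ℝ → ℝ) (F : ℝ → ℂ) (s : ℝ) :
    ∫ t, ((a (s - t) : ℝ) : ℂ) * F t = ∫ q, ((a q : ℝ) : ℂ) * F (s - q) := by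
  rw [← integral_sub_left_eq_self (fun q => ((a q : ℝ) : ℂ) * F (s - q)) volume s]
  congr 1
  funext t
  rw [sub_sub_cancel]

lemma int_ofReal {a : ℝ → ℝ} (ha : Integrable a) : Integrable (fun t => ((a t : ℝ) : ℂ)) :=
  ha.ofReal

lemma int_mul_bc {a : ℝ → ℂ} {F : ℝ → ℂ} (ha : Integrable a) (hF : BC F) :
    Integrable (fun t => a t * F t) := by
  obtain ⟨C, hC⟩ := hF.bdd
  exact ha.mul_bdd (c := C) hF.cont.aestronglyMeasurable (Eventually.of_forall hC)

lemma int_shift {a : ℝ → ℝ} {F : ℝ → ℂ} (ha : Integrable a) (hF : BC F) (s : ℝ) :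
    Integrable (fun t => ((a (s - t) : ℝ) : ℂ) * F t) :=
  int_mul_bc (int_ofReal (ha.comp_sub_left s)) hF

lemma bc_comp_sub {F : ℝ → ℂ} (hF : BC F) (q : ℝ) : BC (fun s => F (s - q)) := by
  obtain ⟨C, hC⟩ := hF.bdd
  exact ⟨hF.cont.comp (continuous_id.sub continuous_const), C, fun s => hC _⟩

lemma bc_comp_sub' {F : ℝ → ℂ} (hF : BC F) (s : ℝ) : BC (fun q => F (s - q)) := by
  obtain ⟨C, hC⟩ := hF.bdd
  exact ⟨hF.cont.comp (continuous_const.sub continuous_id), C, fun s => hC _⟩

lemma bc_conv {a : ℝ → ℝ} {F : ℝ → ℂ} (ha : Integrable a) (hF : BC F) :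
    BC (fun s => ∫ t, ((a (s - t) : ℝ) : ℂ) * F t) := by
  obtain ⟨C, hC⟩ := hF.bdd
  have h0 : (fun s => ∫ t, ((a (s - t) : ℝ) : ℂ) * F t) =
      fun s => ∫ q, ((a q : ℝ) : ℂ) * F (s - q) := funext fun s => conv_sub a F s
  rw [h0]
  have hb : ∀ s q, ‖((a q : ℝ) : ℂ) * F (s - q)‖ ≤ |a q| * C := by
    intro s q
    rw [norm_mul, Complex.norm_real, Real.norm_eq_abs]
    exact mul_le_mul_of_nonneg_left (hC _) (abs_nonneg _)
  refine ⟨?_, ∫ q, |a q| * C, fun s => ?_⟩
  · refine continuous_of_dominated (bound := fun q => |a q| * C) (fun s => ?_)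
      (fun s => Eventually.of_forall (hb s)) (ha.abs.mul_const C)
      (Eventually.of_forall fun q => ?_)
    · exact (int_mul_bc (int_ofReal ha) (bc_comp_sub' hF s)).aestronglyMeasurable
    · exact continuous_const.mul (hF.cont.comp (continuous_id.sub continuous_const))
  · exact norm_integral_le_of_norm_le (ha.abs.mul_const C) (Eventually.of_forall (hb s))

lemma conv_tendsto {a : ℝ → ℝ} {F : ℝ → ℂ} (ha : Integrable a) (hF : BC F) {l : Filter ℝ}
    [l.IsCountablyGenerated] (hl : ∀ q : ℝ, Tendsto (fun s => s - q) l l)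
    (h0 : Tendsto F l (𝓝 0)) :
    Tendsto (fun s => ∫ t, ((a (s - t) : ℝ) : ℂ) * F t) l (𝓝 0) := by
  obtain ⟨C, hC⟩ := hF.bdd
  have h1 : (fun s => ∫ t, ((a (s - t) : ℝ) : ℂ) * F t) =
      fun s => ∫ q, ((a q : ℝ) : ℂ) * F (s - q) := funext fun s => conv_sub a F s
  rw [h1]
  have h2 : (0 : ℂ) = ∫ q : ℝ, ((a q : ℝ) : ℂ) * 0 := by simp
  rw [h2]
  refine tendsto_integral_filter_of_dominated_convergence (fun q => |a q| * C)
    (Eventually.of_forall fun s => ?_) (Eventually.of_forall fun s => Eventually.of_forall ?_)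
    (ha.abs.mul_const C) (Eventually.of_forall fun q => ?_)
  · exact (int_mul_bc (int_ofReal ha) (bc_comp_sub' hF s)).aestronglyMeasurable
  · intro q
    rw [norm_mul, Complex.norm_real, Real.norm_eq_abs]
    exact mul_le_mul_of_nonneg_left (hC _) (abs_nonneg _)
  · exact tendsto_const_nhds.mul (h0.comp (hl q))

/-- convolution of a bounded continuous function with an integrable one -/
lemma bc_conv' {G h : ℝ → ℂ} (hG : BC G) (hh : Integrable h) :
    BC (fun s => ∫ t, G (s - t) * h t) := by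
  obtain ⟨C, hC⟩ := hG.bdd
  have hb : ∀ s t, ‖G (s - t) * h t‖ ≤ C * ‖h t‖ := by
    intro s t
    rw [norm_mul]
    exact mul_le_mul_of_nonneg_right (hC _) (norm_nonneg _)
  have hi : ∀ s, Integrable (fun t => G (s - t) * h t) := fun s =>
    hh.bdd_mul (c := C) (hG.cont.comp (continuous_const.sub continuous_id)).aestronglyMeasurable
      (Eventually.of_forall fun t => hC _)
  refine ⟨?_, ∫ t, C * ‖h t‖, fun s => ?_⟩
  · refine continuous_of_dominated (bound := fun t => C * ‖h t‖)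
      (fun s => (hi s).aestronglyMeasurable) (fun s => Eventually.of_forall (hb s))
      (hh.norm.const_mul C) (Eventually.of_forall fun t => ?_)
    exact (hG.cont.comp (continuous_id.sub continuous_const)).mul continuous_const
  · exact norm_integral_le_of_norm_le (hh.norm.const_mul C) (Eventually.of_forall (hb s))

lemma int_conv' {G h : ℝ → ℂ} (hG : BC G) (hh : Integrable h) (s : ℝ) :
    Integrable (fun t => G (s - t) * h t) := by
  obtain ⟨C, hC⟩ := hG.bdd
  exact hh.bdd_mul (c := C)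
    (hG.cont.comp (continuous_const.sub continuous_id)).aestronglyMeasurable
      (Eventually.of_forall fun t => hC _)

/-- asymptotics of `g₀ * h` -/
lemma g0_asy {k : ℝ} {h : ℝ → ℂ} (hh : Integrable h) (p : ℝ) {l : Filter ℝ}
    [l.IsCountablyGenerated]
    (hl : ∀ t : ℝ, ∀ᶠ s in l, g0 k (s - t) = Complex.I / (2 * k) * pw p (s - t)) :
    Tendsto (fun s => (∫ t, g0 k (s - t) * h t) -
      Complex.I / (2 * k) * (∫ t, pw (-p) t * h t) * pw p s) l (𝓝 0) := by
  set c : ℂ := Complex.I / (2 * k) with hc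
  have h1 : ∀ s, (∫ t, g0 k (s - t) * h t) - c * (∫ t, pw (-p) t * h t) * pw p s =
      ∫ t, (g0 k (s - t) - c * pw p (s - t)) * h t := by
    intro s
    have e1 : c * (∫ t, pw (-p) t * h t) * pw p s = ∫ t, (c * pw p (s - t)) * h t := by
      rw [mul_assoc, mul_comm (∫ t, pw (-p) t * h t), ← mul_assoc, ← integral_const_mul]
      congr 1
      funext t
      rw [sub_eq_add_neg, pw_add, pw_neg]
      ring
    rw [e1, ← integral_sub (int_conv' (bc_g0 k) hh s)
      (int_conv' (BC.const_mul c (bc_pw p)) hh s)]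
    congr 1
    funext t
    ring
  simp only [h1]
  have h2 : (0 : ℂ) = ∫ _t : ℝ, (0 : ℂ) := by simp
  rw [h2]
  have hb : ∀ s t, ‖(g0 k (s - t) - c * pw p (s - t)) * h t‖ ≤ (‖c‖ + ‖c‖) * ‖h t‖ := by
    intro s t
    rw [norm_mul]
    refine mul_le_mul_of_nonneg_right ?_ (norm_nonneg _)
    refine (norm_sub_le _ _).trans ?_
    rw [norm_g0, norm_mul, norm_pw, mul_one]
  refine tendsto_integral_filter_of_dominated_convergence (fun t => (‖c‖ + ‖c‖) * ‖h t‖)
    (Eventually.of_forall fun s => ?_) (Eventually.of_forall fun s => Eventually.of_forall (hb s))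
    (hh.norm.const_mul _) (Eventually.of_forall fun t => ?_)
  · exact (int_conv' (BC.sub (bc_g0 k) (BC.const_mul c (bc_pw p))) hh s).aestronglyMeasurable
  · refine Tendsto.congr' ?_ tendsto_const_nhds
    filter_upwards [hl t] with s hs
    rw [hs, sub_self, zero_mul]

lemma g0_top {k : ℝ} (t : ℝ) :
    ∀ᶠ s in atTop, g0 k (s - t) = Complex.I / (2 * k) * pw k (s - t) := by
  filter_upwards [eventually_ge_atTop t] with s hs
  unfold g0
  rw [abs_of_nonneg (by linarith)]

lemma g0_bot {k : ℝ} (t : ℝ) :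
    ∀ᶠ s in atBot, g0 k (s - t) = Complex.I / (2 * k) * pw (-k) (s - t) := by
  filter_upwards [eventually_le_atBot t] with s hs
  unfold g0
  rw [abs_of_nonpos (by linarith), pw_neg]

/-- uniqueness of the asymptotics -/
lemma asy_unique {k : ℝ} (hk : 0 < k) {A B : ℂ} {l : Filter ℝ}
    (hl : ∀ x : ℝ, ∃ u : ℕ → ℝ, Tendsto u atTop l ∧ ∀ n, pw k (u n) = pw k x)
    (h : Tendsto (fun s => A * pw k s + B * pw (-k) s) l (𝓝 0)) : A = 0 ∧ B = 0 := by
  have key : ∀ x, A * pw k x + B * pw (-k) x = 0 := by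
    intro x
    obtain ⟨u, hu, hpw⟩ := hl x
    have h1 := h.comp hu
    have h2 : ∀ n, pw (-k) (u n) = pw (-k) x := by
      intro n
      have e : ∀ y, pw (-k) y * pw k y = 1 := by
        intro y
        rw [pw_neg, ← pw_add]
        unfold pw; simp
      have h3 := e (u n)
      rw [hpw n] at h3
      have h4 := e x
      have hne : pw k x ≠ 0 := by
        intro h0
        have := norm_pw k x
        rw [h0, norm_zero] at this
        exact one_ne_zero this.symm
      exact mul_right_cancel₀ hne (h3.trans h4.symm)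
    have h5 : ((fun s => A * pw k s + B * pw (-k) s) ∘ u) =
        fun _ => A * pw k x + B * pw (-k) x := by
      funext n
      show A * pw k (u n) + B * pw (-k) (u n) = _
      rw [hpw n, h2 n]
    rw [h5] at h1
    exact tendsto_nhds_unique tendsto_const_nhds h1
  have h0 := key 0
  have h1 := key (π / (2 * k))
  have e0 : pw k 0 = 1 := by unfold pw; simp
  have e0' : pw (-k) 0 = 1 := by unfold pw; simp
  have e1 : pw k (π / (2 * k)) = Complex.I := by
    unfold pw
    have : Complex.I * (k : ℂ) * ((π / (2 * k) : ℝ) : ℂ) = (π : ℂ) / 2 * Complex.I := by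
      have hk' : (k : ℂ) ≠ 0 := by exact_mod_cast hk.ne'
      push_cast
      field_simp
    rw [this, Complex.exp_pi_div_two_mul_I]
  have e1' : pw (-k) (π / (2 * k)) = -Complex.I := by
    unfold pw
    have : Complex.I * ((-k : ℝ) : ℂ) * ((π / (2 * k) : ℝ) : ℂ) = -((π : ℂ) / 2 * Complex.I) := by
      have hk' : (k : ℂ) ≠ 0 := by exact_mod_cast hk.ne'
      push_cast
      field_simp
    rw [this, Complex.exp_neg, Complex.exp_pi_div_two_mul_I, Complex.inv_I]
  rw [e0, e0', mul_one, mul_one] at h0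
  rw [e1, e1'] at h1
  have h2 : (A - B) * Complex.I = 0 := by linear_combination h1
  have h3 : A - B = 0 := (mul_eq_zero.1 h2).resolve_right Complex.I_ne_zero
  constructor
  · linear_combination (h0 + h3) / 2
  · linear_combination (h0 - h3) / 2

lemma seq_top {k : ℝ} (hk : 0 < k) (x : ℝ) :
    ∃ u : ℕ → ℝ, Tendsto u atTop atTop ∧ ∀ n, pw k (u n) = pw k x := by
  refine ⟨fun n => x + n * (2 * π / k), ?_, fun n => ?_⟩
  · apply tendsto_atTop_add_const_left
    exact tendsto_natCast_atTop_atTop.atTop_mul_const (by positivity)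
  · rw [pw_add]
    have : pw k (n * (2 * π / k)) = 1 := by
      unfold pw
      have h : Complex.I * (k : ℂ) * ((n * (2 * π / k) : ℝ) : ℂ) = (n : ℂ) * (2 * π * Complex.I) := by
        have hk' : (k : ℂ) ≠ 0 := by exact_mod_cast hk.ne'
        push_cast
        field_simp
      rw [h, Complex.exp_nat_mul_two_pi_mul_I]
    rw [this, mul_one]

lemma seq_bot {k : ℝ} (hk : 0 < k) (x : ℝ) :
    ∃ u : ℕ → ℝ, Tendsto u atTop atBot ∧ ∀ n, pw k (u n) = pw k x := by
  refine ⟨fun n => x + -(n * (2 * π / k)), ?_, fun n => ?_⟩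
  · apply tendsto_atBot_add_const_left
    exact tendsto_neg_atTop_atBot.comp
      (tendsto_natCast_atTop_atTop.atTop_mul_const (by positivity))
  · rw [pw_add]
    have : pw k (-(n * (2 * π / k))) = 1 := by
      unfold pw
      have h : Complex.I * (k : ℂ) * ((-(n * (2 * π / k)) : ℝ) : ℂ) =
          -((n : ℂ) * (2 * π * Complex.I)) := by
        have hk' : (k : ℂ) ≠ 0 := by exact_mod_cast hk.ne'
        push_cast
        field_simp
      rw [h, Complex.exp_neg, Complex.exp_nat_mul_two_pi_mul_I, inv_one]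
    rw [this, mul_one]

/-! ### The particular solution -/

section part

variable {a w : ℝ → ℝ} {k : ℝ} {h : ℝ → ℂ}

lemma fub_g0 (ha : Integrable a) (hh : Integrable h) (s : ℝ) :
    ∫ r, ((a (s - r) : ℝ) : ℂ) * (∫ t, g0 k (r - t) * h t) =
      ∫ t, (∫ r, ((a (s - t - r) : ℝ) : ℂ) * g0 k r) * h t := by
  have h1 : Integrable (Function.uncurry fun r t : ℝ =>
      ((a (s - r) : ℝ) : ℂ) * (g0 k (r - t) * h t)) (volume.prod volume) := by
    have e1 : Integrable (fun z : ℝ × ℝ => ((a (s - z.1) : ℝ) : ℂ) * h z.2)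
        (volume.prod volume) := (int_ofReal (ha.comp_sub_left s)).mul_prod hh
    have e2 := e1.bdd_mul (f := fun z : ℝ × ℝ => g0 k (z.1 - z.2))
      (c := ‖Complex.I / (2 * (k : ℂ))‖)
      ((cont_g0 k).comp (continuous_fst.sub continuous_snd)).aestronglyMeasurable
      (Eventually.of_forall fun z => (norm_g0 k _).le)
    refine e2.congr (Eventually.of_forall fun z => ?_)
    simp only [Function.uncurry]
    ring
  have h2 := integral_integral_swap h1
  simp only [integral_const_mul] at h2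
  rw [h2]
  congr 1
  funext t
  have e3 : ∫ r, ((a (s - t - r) : ℝ) : ℂ) * g0 k r =
      ∫ r, ((a (s - r) : ℝ) : ℂ) * g0 k (r - t) := by
    rw [← integral_sub_right_eq_self (fun r => ((a (s - t - r) : ℝ) : ℂ) * g0 k r) t]
    congr 1
    funext r
    rw [sub_sub_sub_cancel_right]
  rw [e3, ← integral_mul_const]
  congr 1
  funext r
  ring

lemma fub_w (ha : Integrable a) (hw : Integrable w) (hb : BC h) (s : ℝ) :
    ∫ r, ((a (s - r) : ℝ) : ℂ) * (∫ t, ((w (r - t) : ℝ) : ℂ) * h t) =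
      ∫ t, ((∫ r, a (s - t - r) * w r : ℝ) : ℂ) * h t := by
  obtain ⟨C, hC⟩ := hb.bdd
  have h1 : Integrable (Function.uncurry fun r t : ℝ =>
      ((a (s - r) : ℝ) : ℂ) * (((w (r - t) : ℝ) : ℂ) * h t)) (volume.prod volume) := by
    have e1 := MeasureTheory.Integrable.convolution_integrand (ContinuousLinearMap.mul ℝ ℂ)
      (μ := (volume : Measure ℝ)) (ν := (volume : Measure ℝ))
      (int_ofReal (ha.comp_sub_left s)) (int_ofReal hw.comp_neg)
    have e1' := e1.swap
    have e2 := e1'.mul_bdd (c := C) (g := fun z : ℝ × ℝ => h z.2)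
      (hb.cont.comp continuous_snd).aestronglyMeasurable (Eventually.of_forall fun z => hC _)
    refine e2.congr (Eventually.of_forall fun z => ?_)
    simp only [Function.uncurry, Function.comp, Prod.swap, ContinuousLinearMap.mul_apply', neg_sub]
    ring
  have h2 := integral_integral_swap h1
  simp only [integral_const_mul] at h2
  rw [h2]
  congr 1
  funext t
  have e3 : ∫ r, a (s - t - r) * w r = ∫ r, a (s - r) * w (r - t) := by
    rw [← integral_sub_right_eq_self (fun r => a (s - t - r) * w r) t]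
    congr 1
    funext r
    rw [sub_sub_sub_cancel_right]
  rw [e3, ← integral_complex_ofReal, ← integral_mul_const]
  congr 1
  funext r
  push_cast
  ring

/-- the particular solution -/
noncomputable def fp (α k : ℝ) (w : ℝ → ℝ) (h : ℝ → ℂ) (s : ℝ) : ℂ :=
  ((α ^ 2 / 2 : ℝ) : ℂ) * (∫ t, g0 k (s - t) * h t) + h s + ∫ t, ((w (s - t) : ℝ) : ℂ) * h t

lemma bc_fp (α : ℝ) (hw : Integrable w) (hb : BC h) (hh : Integrable h) :
    BC (fp α k w h) :=
  BC.add (BC.add (BC.const_mul _ (bc_conv' (bc_g0 k) hh)) hb) (bc_conv hw hb)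

lemma fp_eq {α : ℝ} (hα : 0 < α) (ha : Integrable a) (hw : Integrable w) (hb : BC h)
    (hh : Integrable h)
    (eq1 : ∀ s : ℝ, g0 k s - (∫ r, ((a (s - r) : ℝ) : ℂ) * g0 k r) =
      ((4 / α ^ 2 * ∫ r, a (s - r) * w r : ℝ) : ℂ))
    (eq2 : ∀ᵐ s : ℝ, w s + (∫ r, a (s - r) * w r) = a s) (s : ℝ) :
    fp α k w h s - ∫ t, ((a (s - t) : ℝ) : ℂ) * fp α k w h t = h s := by
  set c : ℝ → ℝ := fun s => ∫ r, a (s - r) * w r with hc
  have hα' : (α : ℂ) ≠ 0 := by exact_mod_cast hα.ne'
  have hcc : ∀ s, ((c s : ℝ) : ℂ) = ((α ^ 2 / 4 : ℝ) : ℂ) *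
      (g0 k s - ∫ r, ((a (s - r) : ℝ) : ℂ) * g0 k r) := by
    intro s
    rw [eq1 s]
    push_cast
    field_simp
    rfl
  have hbc : BC (fun s => ((c s : ℝ) : ℂ)) := by
    have : (fun s => ((c s : ℝ) : ℂ)) = fun s => ((α ^ 2 / 4 : ℝ) : ℂ) *
      (g0 k s - ∫ r, ((a (s - r) : ℝ) : ℂ) * g0 k r) := funext hcc
    rw [this]
    exact BC.const_mul _ (BC.sub (bc_g0 k) (bc_conv ha (bc_g0 k)))
  -- the three integrals
  have I1 : ∫ t, ((a (s - t) : ℝ) : ℂ) * (∫ r, g0 k (t - r) * h r) =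
      (∫ t, g0 k (s - t) * h t) - ((4 / α ^ 2 : ℝ) : ℂ) * ∫ t, ((c (s - t) : ℝ) : ℂ) * h t := by
    rw [fub_g0 ha hh s, ← integral_const_mul, ← integral_sub (int_conv' (bc_g0 k) hh s)
      ((int_conv' hbc hh s).const_mul _)]
    congr 1
    funext t
    have e := eq1 (s - t)
    have e' : (∫ r, ((a (s - t - r) : ℝ) : ℂ) * g0 k r) =
        g0 k (s - t) - ((4 / α ^ 2 * ∫ r, a (s - t - r) * w r : ℝ) : ℂ) := by
      rw [← e]; ring
    rw [e']
    simp only [hc]
    push_cast
    ring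
  have I2 : ∫ t, ((a (s - t) : ℝ) : ℂ) * (∫ r, ((w (t - r) : ℝ) : ℂ) * h r) =
      ∫ t, ((c (s - t) : ℝ) : ℂ) * h t := fub_w ha hw hb s
  have I3 : ∫ t, ((a (s - t) : ℝ) : ℂ) * fp α k w h t =
      ((α ^ 2 / 2 : ℝ) : ℂ) * (∫ t, ((a (s - t) : ℝ) : ℂ) * (∫ r, g0 k (t - r) * h r)) +
      (∫ t, ((a (s - t) : ℝ) : ℂ) * h t) +
      ∫ t, ((a (s - t) : ℝ) : ℂ) * (∫ r, ((w (t - r) : ℝ) : ℂ) * h r) := by
    have j1 := (int_shift ha (bc_conv' (bc_g0 k) hh) s).const_mul ((α ^ 2 / 2 : ℝ) : ℂ)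
    have j2 := int_shift ha hb s
    have j3 := int_shift ha (bc_conv hw hb) s
    rw [← integral_const_mul, ← integral_add j1 j2, ← integral_add (j1.fun_add j2) j3]
    congr 1
    funext t
    unfold fp
    ring
  have I4 : (∫ t, ((w (s - t) : ℝ) : ℂ) * h t) + ∫ t, ((c (s - t) : ℝ) : ℂ) * h t =
      ∫ t, ((a (s - t) : ℝ) : ℂ) * h t := by
    rw [← integral_add (int_shift hw hb s) (int_conv' hbc hh s)]
    refine integral_congr_ae ?_
    have e := (Measure.measurePreserving_sub_left (volume : Measure ℝ) s).quasiMeasurePreserving.ae eq2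
    filter_upwards [e] with t ht
    rw [← add_mul]
    congr 1
    rw [← Complex.ofReal_add]
    congr 1
  rw [I3, I1, I2]
  unfold fp
  have e4 : ((α ^ 2 / 2 : ℝ) : ℂ) * ((4 / α ^ 2 : ℝ) : ℂ) = 2 := by
    push_cast
    field_simp
    norm_num
  linear_combination I4 + (∫ t, ((c (s - t) : ℝ) : ℂ) * h t) * e4

end part

/-! ### The theorem -/

lemma mu_pos {α k : ℝ} (hk : 0 < k) (hα : 2 * k < α) : 0 < mu α k := by
  unfold mu
  apply Real.sqrt_pos.2
  nlinarith

lemma mu_sq {α k : ℝ} (hk : 0 < k) (hα : 2 * k < α) : mu α k ^ 2 = α ^ 2 / 4 - k ^ 2 := by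
  unfold mu
  apply Real.sq_sqrt
  nlinarith

lemma A0_pw (hFT : S_FT) {α k p : ℝ} (hk : 0 < k) (hα : 2 * k < α) (hp : p ^ 2 = k ^ 2) (s : ℝ) :
    A0 α k (pw p) s = pw p s := by
  have h1 : A0 α k (pw p) s = ∫ q, ((α * Gk (mu α k) |q| : ℝ) : ℂ) * pw p (s - q) :=
    conv_sub (fun q => α * Gk (mu α k) |q|) (pw p) s
  have h2 : ∀ q, ((α * Gk (mu α k) |q| : ℝ) : ℂ) * pw p (s - q) =
      (pw p s * α) * (((Gk (mu α k) |q| : ℝ) : ℂ) * pw (-p) q) := by
    intro q
    rw [sub_eq_add_neg, pw_add, ← pw_neg]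
    push_cast
    ring
  rw [h1]
  simp only [h2]
  rw [integral_const_mul, hFT.1 (mu α k) (-p) (mu_pos hk hα)]
  have h3 : √((-p) ^ 2 + mu α k ^ 2) = α / 2 := by
    rw [mu_sq hk hα, neg_sq, hp]
    have : k ^ 2 + (α ^ 2 / 4 - k ^ 2) = (α / 2) ^ 2 := by ring
    rw [this]
    exact Real.sqrt_sq (by linarith)
  rw [h3]
  have hα' : (α : ℂ) ≠ 0 := by
    have : (α : ℝ) ≠ 0 := by linarith
    exact_mod_cast this
  push_cast
  field_simp

theorem t_KEY (hD : S_D3) (hLi : S_LIOU) (hFT : S_FT) (hG : S_G) : S_KEY := by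
  intro γ L k α w f r t hγ hne hk hα hw hf
  have hα0 : 0 < α := by linarith
  have hmu := mu_pos hk hα
  obtain ⟨-, -, -, -, -, hDf⟩ := hD γ L k α hγ hne hk hα
  obtain ⟨hhb, hhi, hh0, hAG⟩ := hDf f hf
  set h : ℝ → ℂ := DD α k γ f with hh
  set a : ℝ → ℝ := fun s => α * Gk (mu α k) |s| with ha
  have hai : Integrable a := (hG.2.2.2.2.1 (mu α k) hmu).const_mul α
  have hKK : ∀ s, KK α k γ w f s = fp α k w h s := fun s => rfl
  have hfpb : BC (fp α k w h) := bc_fp α hw.int hhb hhi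
  have hfp : ∀ s, fp α k w h s - A0 α k (fp α k w h) s = h s := fun s =>
    fp_eq hα0 hai hw.int hhb hhi hw.eq1 hw.eq2 s
  -- asymptotics of the particular solution
  set R : ℂ := Complex.I / (2 * k) * ((α ^ 2 / 2 : ℝ) : ℂ) * ∫ s, pw k s * h s with hR
  set T : ℂ := Complex.I / (2 * k) * ((α ^ 2 / 2 : ℝ) : ℂ) * ∫ s, pw (-k) s * h s with hT
  rw [cocompact_eq_atBot_atTop, tendsto_sup] at hh0
  have hbot : Tendsto (fun s => fp α k w h s - R * pw (-k) s) atBot (𝓝 0) := by
    have e1 := (g0_asy (k := k) hhi (-k) g0_bot).const_mul ((α ^ 2 / 2 : ℝ) : ℂ)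
    have e2 := conv_tendsto hw.int hhb (l := atBot)
      (fun q => by simpa [sub_eq_add_neg] using tendsto_atBot_add_const_right atBot (-q) tendsto_id)
      hh0.1
    have e3 := (e1.add hh0.1).add e2
    rw [mul_zero, add_zero, add_zero] at e3
    refine e3.congr fun s => ?_
    rw [neg_neg]
    unfold fp
    rw [hR]
    ring
  have htop : Tendsto (fun s => fp α k w h s - T * pw k s) atTop (𝓝 0) := by
    have e1 := (g0_asy (k := k) hhi k g0_top).const_mul ((α ^ 2 / 2 : ℝ) : ℂ)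
    have e2 := conv_tendsto hw.int hhb (l := atTop)
      (fun q => by simpa [sub_eq_add_neg] using tendsto_atTop_add_const_right atTop (-q) tendsto_id)
      hh0.2
    have e3 := (e1.add hh0.2).add e2
    rw [mul_zero, add_zero, add_zero] at e3
    refine e3.congr fun s => ?_
    unfold fp
    rw [hT]
    ring
  constructor
  · rintro ⟨h1, h2, h3⟩
    -- `u = f - fp` solves `A⁰ u = u`
    have hu : BC (fun s => f s - fp α k w h s) := BC.sub hf hfpb
    have hA0u : ∀ s, A0 α k (fun s => f s - fp α k w h s) s = f s - fp α k w h s := by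
      intro s
      have e1 : A0 α k (fun s => f s - fp α k w h s) s =
          A0 α k f s - A0 α k (fp α k w h) s := by
        unfold A0
        rw [← integral_sub (int_shift hai hf s) (int_shift hai hfpb s)]
        congr 1
        funext t
        simp only [ha]
        ring
      have e2 := hAG s
      rw [h1 s] at e2
      have e3 := hfp s
      rw [e1]
      linear_combination e3 - e2
    obtain ⟨A, B, hAB⟩ := hLi α k _ hk hα hu hA0u
    have hf' : ∀ s, f s = A * pw k s + B * pw (-k) s + fp α k w h s := by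
      intro s
      have := hAB s
      linear_combination this
    have hb1 : Tendsto (fun s => (A - 1) * pw k s + (B + R - r) * pw (-k) s) atBot (𝓝 0) := by
      have e := h2.sub hbot
      rw [sub_zero] at e
      refine e.congr fun s => ?_
      rw [hf' s]
      ring
    have ht1 : Tendsto (fun s => (A + T - t) * pw k s + B * pw (-k) s) atTop (𝓝 0) := by
      have e := h3.sub htop
      rw [sub_zero] at e
      refine e.congr fun s => ?_
      rw [hf' s]
      ring
    obtain ⟨b1, b2⟩ := asy_unique hk (seq_bot hk) hb1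
    obtain ⟨t1, t2⟩ := asy_unique hk (seq_top hk) ht1
    have hA1 : A = 1 := by linear_combination b1
    refine ⟨fun s => ?_, ?_, ?_⟩
    · rw [hKK s, hf' s, hA1, t2]
      ring
    · linear_combination -b2 + t2
    · linear_combination -t1 + hA1
  · rintro ⟨h1, h2, h3⟩
    have hf' : f = fun s => pw k s + fp α k w h s := funext fun s => by rw [h1 s, hKK s]
    refine ⟨fun s => ?_, ?_, ?_⟩
    · have e1 : A0 α k f s = A0 α k (pw k) s + A0 α k (fp α k w h) s := by
        unfold A0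
        rw [← integral_add (int_shift hai (bc_pw k) s) (int_shift hai hfpb s)]
        congr 1
        funext t
        rw [hf']
        simp only [ha]
        ring
      rw [hAG s, e1, A0_pw hFT hk hα rfl s]
      have e3 := hfp s
      rw [h1 s, hKK s]
      linear_combination -e3
    · unfold Asy1
      refine hbot.congr fun s => ?_
      rw [h1 s, hKK s, h2]
      ring
    · unfold Asy1
      refine htop.congr fun s => ?_
      rw [h1 s, hKK s, h3]
      ring

end Pool.Agent.E8helper54.LC.Key
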