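import Pool.Agent.E8helper19.LC.Stm3
import Pool.Agent.E8helper67.LC.D1

/-!
Project LC (MP_862eda_mp), piece LC35: the second moment of the kernel `D`.
-/

set_option autoImplicit false
open MeasureTheory Filter Topology Set
open scoped ContDiff Real

namespace Pool.Agent.E8helper54.LC.Sec

open Pool.Agent.E8helper19.LC Pool.Agent.E8helper67.LC

/-- `μ → ∞` -/
lemma mu_top (k : ℝ) (hk : 0 < k) : Tendsto (fun α : ℝ => mu α k) atTop atTop := by
  refine tendsto_atTop_mono' atTop ?_ (tendsto_id.atTop_div_const (by norm_num : (0 : ℝ) < 4))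
  filter_upwards [eventually_ge_atTop (4 * k + 1)] with α hα
  exact mu_ge hk hα

/-- `α / μ → 2` -/
lemma ratio (k : ℝ) (hk : 0 < k) : Tendsto (fun α : ℝ => α / mu α k) atTop (𝓝 2) := by
  have h1 : Tendsto (fun α : ℝ => √(1 / 4 - k ^ 2 / α ^ 2)) atTop (𝓝 (√(1 / 4 - 0))) := by
    refine (Real.continuous_sqrt.tendsto _).comp ?_
    refine tendsto_const_nhds.sub ?_
    exact tendsto_const_nhds.div_atTop (tendsto_pow_atTop (by norm_num))
  have h2 : √(1 / 4 - 0 : ℝ) = 1 / 2 := by
    rw [sub_zero, show (1 / 4 : ℝ) = (1 / 2) ^ 2 by norm_num, Real.sqrt_sq (by norm_num)]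
  rw [h2] at h1
  have h3 := h1.inv₀ (by norm_num)
  rw [show ((1 : ℝ) / 2)⁻¹ = 2 by norm_num] at h3
  refine h3.congr' ?_
  filter_upwards [eventually_ge_atTop (4 * k + 1)] with α hα
  have hα0 : 0 < α := by linarith
  have hμ : 0 < mu α k := by
    have := mu_ge hk hα
    linarith
  have h4 : √(1 / 4 - k ^ 2 / α ^ 2) = mu α k / α := by
    unfold mu
    rw [eq_div_iff hα0.ne']
    nth_rewrite 2 [← Real.sqrt_sq hα0.le]
    rw [← Real.sqrt_mul' _ (by positivity)]
    congr 1
    field_simp
  rw [h4, inv_div]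

theorem t_SEC (h : S_CHORD) (h2 : S_TAY) (h3 : S_G5) (h4 : S_G) (h5 : S_D3) : S_SEC := by
  intro γ L k hγ hne hk
  obtain ⟨c, hc, hc1, hch⟩ := h γ L hγ hne
  obtain ⟨C0, hC0, hT1, hT2, hT3, hκc, hκ0⟩ := h2 γ L hγ
  obtain ⟨hG1, -⟩ := h4
  obtain ⟨H, Q, hHm, -, hH0, hHanti, hHle, hQle, hHi, -, -, h45⟩ := h3
  have hL := hγ.pos
  -- the majorant
  set B : ℝ × ℝ → ℝ := fun w => 4 ^ 5 * C0 * Ps 1 c L H 2 w with hB
  have hBi : Integrable B (volume.prod volume) :=
    (Ps_int 1 L zero_le_one hL hc hHm (fun x hx => (hH0 x hx).1) 2 (hHi 5 (by norm_num))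
      (hHi 6 (by norm_num))).1.const_mul _
  set g : ℝ → ℝ → ℝ → ℝ := fun α s u =>
    α ^ 4 * ((mu α k)⁻¹ * (Dk α k γ s (s + u / mu α k) * |s - (s + u / mu α k)| ^ 2)) with hg
  -- pointwise bounds
  have hle : ∀ α, 4 * k + 4 ≤ α → ∀ s t, Dk α k γ s t ≤
      Ph (α * mu α k * C0) (mu α k * c) H (s - t) := by
    intro α hα s t
    have hμ4 : α / 4 ≤ mu α k := mu_ge hk (by linarith)
    have hμ0 : 0 < mu α k := by linarith
    have hα0 : 0 < α := by linarith
    rcases eq_or_ne s t with rfl | hst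
    · unfold Dk Ph
      simp
    · have hr : 0 < |s - t| := abs_pos.2 (sub_ne_zero.2 hst)
      have hρ : 0 < ‖γ s - γ t‖ := lt_of_lt_of_le (by positivity) (hch s t)
      unfold Dk Ph
      rw [(hG1 (mu α k) _ hμ0 hρ).2, (hG1 (mu α k) _ hμ0 hr).2]
      have h5 := hHle (mu α k * ‖γ s - γ t‖) (mu α k * |s - t|) (by positivity)
        (mul_le_mul_of_nonneg_left (hT1 s t) hμ0.le)
      have h6 := (hHanti (mu α k * c * |s - t|) (mu α k * ‖γ s - γ t‖) (by positivity) (by
        rw [mul_assoc]
        exact mul_le_mul_of_nonneg_left (hch s t) hμ0.le)).1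
      have h7 := hT2 s t
      have h8 := (hH0 (mu α k * c * |s - t|) (by positivity)).1
      have h9 : 0 ≤ mu α k * |s - t| - mu α k * ‖γ s - γ t‖ := by
        have := mul_le_mul_of_nonneg_left (hT1 s t) hμ0.le
        linarith
      calc α * (Gk 1 (mu α k * ‖γ s - γ t‖) - Gk 1 (mu α k * |s - t|))
          ≤ α * ((mu α k * |s - t| - mu α k * ‖γ s - γ t‖) * H (mu α k * c * |s - t|)) := by
            apply mul_le_mul_of_nonneg_left _ hα0.le
            exact h5.trans (mul_le_mul_of_nonneg_left h6 h9)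
        _ ≤ α * ((mu α k * (C0 * |s - t| ^ 3)) * H (mu α k * c * |s - t|)) := by
            apply mul_le_mul_of_nonneg_left _ hα0.le
            apply mul_le_mul_of_nonneg_right _ h8
            rw [← mul_sub]
            exact mul_le_mul_of_nonneg_left h7 hμ0.le
        _ = α * mu α k * C0 * (|s - t| ^ 3 * H (mu α k * c * |s - t|)) := by ring
  -- the shear
  set T : ℝ × ℝ → ℝ × ℝ := fun z => (z.1, -z.1 + z.2) with hTdef
  have hTm : MeasurePreserving T volume volume := measurePreserving_prod_neg_add volume volume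
  have hPsT : ∀ α, 4 * k + 4 ≤ α → ∀ (z : ℝ × ℝ), Dk α k γ z.1 z.2 * |z.1 - z.2| ^ 2 ≤
      Ps (α * mu α k * C0) (mu α k * c) L H 2 (T z) := by
    intro α hα z
    have e : |(T z).2| = |z.1 - z.2| := by
      change |-z.1 + z.2| = |z.1 - z.2|
      rw [← abs_neg]
      congr 1
      ring
    have e1 : (T z).1 = z.1 := rfl
    unfold Ps
    rw [e, e1]
    split_ifs with h5
    · apply mul_le_mul_of_nonneg_right _ (by positivity)
      refine (hle α hα z.1 z.2).trans (le_of_eq ?_)
      unfold Ph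
      rw [e]
    · rw [Dk_zero hγ α k (not_le.1 h5), zero_mul]
  have hI : ∀ α, 4 * k + 4 ≤ α →
      Integrable (fun z : ℝ × ℝ => Dk α k γ z.1 z.2 * |z.1 - z.2| ^ 2) := by
    intro α hα
    have hμ4 : α / 4 ≤ mu α k := mu_ge hk (by linarith)
    have hμ0 : 0 < mu α k := by linarith
    have hα0 : 0 < α := by linarith
    obtain ⟨hD0, -, hDi, -, -, -⟩ := h5 γ L k α hγ hne hk (by linarith)
    have hP1 := (Ps_int (α * mu α k * C0) L (by positivity) hL (mul_pos hμ0 hc) hHm
      (fun x hx => (hH0 x hx).1) 2 (hHi 5 (by norm_num)) (hHi 6 (by norm_num))).1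
    have hP3 : Integrable (fun z => Ps (α * mu α k * C0) (mu α k * c) L H 2 (T z)) :=
      hTm.integrable_comp_of_integrable hP1
    refine hP3.mono' ?_ (Eventually.of_forall fun z => ?_)
    · apply hDi.aestronglyMeasurable.mul
      exact (by fun_prop : Continuous fun z : ℝ × ℝ => |z.1 - z.2| ^ 2).aestronglyMeasurable
    · rw [Real.norm_of_nonneg (mul_nonneg (hD0 _ _) (by positivity))]
      exact hPsT α hα z
  -- the change of variables
  have hJ : ∀ α, 4 * k + 4 ≤ α → ∀ s, ∫ u, g α s u =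
      α ^ 4 * ∫ t, Dk α k γ s t * |s - t| ^ 2 := by
    intro α hα s
    have hμ4 : α / 4 ≤ mu α k := mu_ge hk (by linarith)
    have hμ0 : 0 < mu α k := by linarith
    rw [hg]
    simp only
    rw [integral_const_mul, integral_const_mul]
    rw [Measure.integral_comp_div (fun v => Dk α k γ s (s + v) * |s - (s + v)| ^ 2) (mu α k)]
    rw [integral_add_left_eq_self (fun t => Dk α k γ s t * |s - t| ^ 2) s]
    rw [smul_eq_mul, abs_of_pos hμ0, ← mul_assoc (mu α k)⁻¹, inv_mul_cancel₀ hμ0.ne', one_mul]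
  -- the bound
  have hbd : ∀ α, 4 * k + 4 ≤ α → ∀ s u, ‖g α s u‖ ≤ B (s, u) := by
    intro α hα s u
    have hμ4 : α / 4 ≤ mu α k := mu_ge hk (by linarith)
    have hμ0 : 0 < mu α k := by linarith
    have hμ1 : 1 ≤ mu α k := by linarith
    have hα0 : 0 < α := by linarith
    obtain ⟨hD0, -, hDi, -, -, -⟩ := h5 γ L k α hγ hne hk (by linarith)
    have e0 : 0 ≤ g α s u := by
      rw [hg]
      have := hD0 s (s + u / mu α k)
      positivity
    rw [Real.norm_of_nonneg e0, hg, hB]
    simp only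
    have e1 := hPsT α hα (s, s + u / mu α k)
    have e2 : T (s, s + u / mu α k) = (s, u / mu α k) := by
      rw [hTdef]
      simp
    rw [e2] at e1
    simp only at e1
    have e3 : α ^ 4 * ((mu α k)⁻¹ * (Dk α k γ s (s + u / mu α k) *
        |s - (s + u / mu α k)| ^ 2)) ≤ α ^ 4 * ((mu α k)⁻¹ *
        Ps (α * mu α k * C0) (mu α k * c) L H 2 (s, u / mu α k)) := by
      gcongr
    refine e3.trans ?_
    have e4 : |u / mu α k| = |u| / mu α k := by rw [abs_div, abs_of_pos hμ0]
    have hPnn : 0 ≤ |u| ^ 3 * H (c * |u|) * |u| ^ 2 := by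
      rcases eq_or_ne u 0 with rfl | hu
      · simp
      · have := (hH0 (c * |u|) (by positivity)).1
        positivity
    unfold Ps Ph
    simp only
    by_cases hs : |s| ≤ L + |u / mu α k|
    · rw [if_pos hs]
      have hs' : |s| ≤ L + |u| := by
        refine hs.trans ?_
        rw [e4]
        have := div_le_self (abs_nonneg u) hμ1
        linarith
      rw [if_pos hs', e4]
      have e5 : mu α k * c * (|u| / mu α k) = c * |u| := by
        field_simp
      rw [e5]
      have e6 : α ^ 4 * ((mu α k)⁻¹ * (α * mu α k * C0 * ((|u| / mu α k) ^ 3 * H (c * |u|)) *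
          (|u| / mu α k) ^ 2)) = (α / mu α k) ^ 5 * C0 * (|u| ^ 3 * H (c * |u|) * |u| ^ 2) := by
        field_simp
      rw [e6]
      have e7 : α / mu α k ≤ 4 := by
        rw [div_le_iff₀ hμ0]
        linarith
      have e8 : (α / mu α k) ^ 5 ≤ 4 ^ 5 := pow_le_pow_left₀ (by positivity) e7 5
      have e9 := mul_le_mul_of_nonneg_right e8 (mul_nonneg hC0.le hPnn)
      calc _ = (α / mu α k) ^ 5 * (C0 * (|u| ^ 3 * H (c * |u|) * |u| ^ 2)) := by ring
        _ ≤ _ := e9
        _ = _ := by ring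
    · rw [if_neg hs]
      split_ifs
      · simp only [mul_zero]
        have : 0 ≤ 4 ^ 5 * C0 * (|u| ^ 3 * H (c * |u|) * |u| ^ 2) := by positivity
        calc (0 : ℝ) ≤ _ := this
          _ = _ := by ring
      · simp
  -- the pointwise limit
  have hlim : ∀ s u, Tendsto (fun α => g α s u) atTop
      (𝓝 (4 / 3 * kap2 γ s * (|u| ^ 5 * H |u|))) := by
    intro s u
    rcases eq_or_ne u 0 with rfl | hu
    · rw [hg]
      simp
    have hu' : 0 < |u| := abs_pos.2 hu
    have hμt := mu_top k hk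
    set ρ : ℝ → ℝ := fun α => ‖γ s - γ (s + u / mu α k)‖ with hρ
    set y : ℝ → ℝ := fun α => (mu α k) ^ 2 * (|u| - mu α k * ρ α) with hy
    have hmus : ∀ᶠ α : ℝ in atTop, 4 * k + 4 ≤ α := eventually_ge_atTop _
    have habs : ∀ α, 0 < mu α k → |s + u / mu α k - s| = |u| / mu α k := by
      intro α hα
      rw [add_sub_cancel_left, abs_div, abs_of_pos hα]
    have hylim : Tendsto y atTop (𝓝 (kap2 γ s * |u| ^ 3 / 24)) := by
      rw [tendsto_iff_norm_sub_tendsto_zero]
      have q1 : Tendsto (fun α : ℝ => C0 * |u| ^ 4 / mu α k) atTop (𝓝 0) :=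
        tendsto_const_nhds.div_atTop hμt
      refine squeeze_zero' (Eventually.of_forall fun _ => norm_nonneg _) ?_ q1
      filter_upwards [hmus] with α hα
      have hμ4 : α / 4 ≤ mu α k := mu_ge hk (by linarith)
      have hμ0 : 0 < mu α k := by linarith
      have q2 := hT3 (s + u / mu α k) s
      rw [habs α hμ0, norm_sub_rev] at q2
      rw [Real.norm_eq_abs]
      have q3 : y α - kap2 γ s * |u| ^ 3 / 24 = (mu α k) ^ 3 *
          (|u| / mu α k - ρ α - kap2 γ s * (|u| / mu α k) ^ 3 / 24) := by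
        rw [hy]
        field_simp
      rw [q3, abs_mul, abs_of_pos (by positivity : 0 < (mu α k) ^ 3)]
      calc _ ≤ (mu α k) ^ 3 * (C0 * (|u| / mu α k) ^ 4) := by
            apply mul_le_mul_of_nonneg_left q2 (by positivity)
        _ = C0 * |u| ^ 4 / mu α k := by
            field_simp
    have hzlim : Tendsto (fun α => (mu α k) ^ 2 * (Gk 1 (mu α k * ρ α) - Gk 1 |u|)) atTop
        (𝓝 (kap2 γ s * |u| ^ 3 / 24 * H |u|)) := by
      have q1 : Tendsto (fun α => y α * H |u|) atTop (𝓝 (kap2 γ s * |u| ^ 3 / 24 * H |u|)) :=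
        hylim.mul_const _
      have q2 : Tendsto (fun α => (y α) ^ 2 * Q (c * |u|) / (mu α k) ^ 2) atTop (𝓝 0) :=
        ((hylim.pow 2).mul_const _).div_atTop ((tendsto_pow_atTop (by norm_num)).comp hμt)
      have q3 : Tendsto (fun α => (mu α k) ^ 2 * (Gk 1 (mu α k * ρ α) - Gk 1 |u|) -
          y α * H |u|) atTop (𝓝 0) := by
        refine squeeze_zero_norm' ?_ q2
        filter_upwards [hmus] with α hα
        have hμ4 : α / 4 ≤ mu α k := mu_ge hk (by linarith)
        have hμ0 : 0 < mu α k := by linarith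
        have hst : |s - (s + u / mu α k)| = |u| / mu α k := by
          rw [abs_sub_comm]
          exact habs α hμ0
        have p1 := hch s (s + u / mu α k)
        rw [hst] at p1
        have p2 := hT1 s (s + u / mu α k)
        rw [hst] at p2
        have p3 : c * |u| ≤ mu α k * ρ α := by
          have := mul_le_mul_of_nonneg_left p1 hμ0.le
          calc c * |u| = mu α k * (c * (|u| / mu α k)) := by field_simp
            _ ≤ _ := this
        have p4 : mu α k * ρ α ≤ |u| := by
          have := mul_le_mul_of_nonneg_left p2 hμ0.le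
          calc mu α k * ρ α ≤ mu α k * (|u| / mu α k) := this
            _ = |u| := by field_simp
        have p0 : 0 < mu α k * ρ α := lt_of_lt_of_le (by positivity) p3
        have p5 := hQle (mu α k * ρ α) |u| p0 p4
        have p6 := (hHanti (c * |u|) (mu α k * ρ α) (by positivity) p3).2
        rw [Real.norm_eq_abs]
        have p7 : (mu α k) ^ 2 * (Gk 1 (mu α k * ρ α) - Gk 1 |u|) - y α * H |u| =
            (mu α k) ^ 2 * (Gk 1 (mu α k * ρ α) - Gk 1 |u| -
              (|u| - mu α k * ρ α) * H |u|) := by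
          rw [hy]
          ring
        rw [p7, abs_mul, abs_of_pos (by positivity : 0 < (mu α k) ^ 2)]
        calc _ ≤ (mu α k) ^ 2 * ((|u| - mu α k * ρ α) ^ 2 * Q (mu α k * ρ α)) :=
              mul_le_mul_of_nonneg_left p5 (by positivity)
          _ ≤ (mu α k) ^ 2 * ((|u| - mu α k * ρ α) ^ 2 * Q (c * |u|)) := by gcongr
          _ = (y α) ^ 2 * Q (c * |u|) / (mu α k) ^ 2 := by
              rw [hy]
              field_simp
      have q4 := q3.add q1
      rw [zero_add] at q4
      refine q4.congr (fun α => ?_)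
      ring
    have hfin := (((ratio k hk).pow 5).mul_const (|u| ^ 2)).mul hzlim
    have e0 : (2 : ℝ) ^ 5 * |u| ^ 2 * (kap2 γ s * |u| ^ 3 / 24 * H |u|) =
        4 / 3 * kap2 γ s * (|u| ^ 5 * H |u|) := by ring
    rw [e0] at hfin
    refine hfin.congr' ?_
    filter_upwards [hmus] with α hα
    have hμ4 : α / 4 ≤ mu α k := mu_ge hk (by linarith)
    have hμ0 : 0 < mu α k := by linarith
    have hst : |s - (s + u / mu α k)| = |u| / mu α k := by
      rw [abs_sub_comm]
      exact habs α hμ0
    have p1 := hch s (s + u / mu α k)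
    rw [hst] at p1
    have hρ0 : 0 < ‖γ s - γ (s + u / mu α k)‖ := lt_of_lt_of_le (by positivity) p1
    rw [hg, hρ]
    simp only
    unfold Dk
    rw [hst, (hG1 (mu α k) _ hμ0 hρ0).2, (hG1 (mu α k) _ hμ0 (by positivity)).2,
      mul_div_cancel₀ _ hμ0.ne']
    field_simp
  -- the inner limit
  have hin : ∀ s, Integrable (fun u => B (s, u)) → Tendsto (fun α => ∫ u, g α s u) atTop
      (𝓝 (30 * kap2 γ s)) := by
    intro s hs
    have e1 : ∫ u, 4 / 3 * kap2 γ s * (|u| ^ 5 * H |u|) = 30 * kap2 γ s := by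
      rw [integral_const_mul, integral_comp_abs (f := fun x => x ^ 5 * H x), h45]
      ring
    rw [← e1]
    refine tendsto_integral_filter_of_dominated_convergence (fun u => B (s, u)) ?_ ?_ hs
      (Eventually.of_forall (hlim s))
    · filter_upwards [eventually_ge_atTop (4 * k + 4)] with α hα
      have hμ4 : α / 4 ≤ mu α k := mu_ge hk (by linarith)
      have hμ0 : 0 < mu α k := by linarith
      obtain ⟨-, -, -, hDs, -, -⟩ := h5 γ L k α hγ hne hk (by linarith)
      have m1 : Integrable (fun v => Dk α k γ s (s + v)) := (hDs s).comp_add_left s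
      have m2 : Integrable (fun u => Dk α k γ s (s + u / mu α k)) := m1.comp_div hμ0.ne'
      rw [hg]
      refine (((m2.aestronglyMeasurable).mul ?_).const_mul _).const_mul _
      exact (by fun_prop : Continuous fun u : ℝ => |s - (s + u / mu α k)| ^ 2).aestronglyMeasurable
    · filter_upwards [eventually_ge_atTop (4 * k + 4)] with α hα
      exact Eventually.of_forall (hbd α hα s)
  -- the outer limit
  have hout : Tendsto (fun α => ∫ s, ∫ u, g α s u) atTop (𝓝 (∫ s, 30 * kap2 γ s)) := by
    refine tendsto_integral_filter_of_dominated_convergence (fun s => ∫ u, B (s, u)) ?_ ?_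
      hBi.integral_prod_left ?_
    · filter_upwards [eventually_ge_atTop (4 * k + 4)] with α hα
      have m1 : Integrable (fun s => α ^ 4 * ∫ t, Dk α k γ s t * |s - t| ^ 2) :=
        ((hI α hα).integral_prod_left).const_mul _
      exact (m1.congr (Eventually.of_forall fun s => (hJ α hα s).symm)).aestronglyMeasurable
    · filter_upwards [eventually_ge_atTop (4 * k + 4)] with α hα
      filter_upwards [hBi.prod_right_ae] with s hs
      exact norm_integral_le_of_norm_le hs (Eventually.of_forall (hbd α hα s))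
    · filter_upwards [hBi.prod_right_ae] with s hs
      exact hin s hs
  rw [integral_const_mul] at hout
  refine hout.congr' ?_
  filter_upwards [eventually_ge_atTop (4 * k + 4)] with α hα
  have e1 : ∫ z : ℝ × ℝ, Dk α k γ z.1 z.2 * |z.1 - z.2| ^ 2 =
      ∫ s, ∫ t, Dk α k γ s t * |s - t| ^ 2 :=
    integral_prod (fun z : ℝ × ℝ => Dk α k γ z.1 z.2 * |z.1 - z.2| ^ 2) (hI α hα)
  rw [e1, ← integral_const_mul]
  exact integral_congr_ae (Eventually.of_forall fun s => hJ α hα s)

end Pool.Agent.E8helper54.LC.Sec
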